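import Pool.Agent.PFD.StmtsD4

/-!
HSV: the form vanishes on the Hattori-Stallings trace of an idempotent.
-/

open scoped BigOperators

noncomputable section

namespace Pool.Agent.PFD.D4.H89

open Pool.Agent.PFC.B1 (FS Split)

/-- the trace of a matrix composed with a linear form -/
def trf {K B N : Type} [Field K] [Ring B] [Algebra K B] [Fintype N] (t : B →ₗ[K] K)
    (M : Matrix N N B) : K := ∑ k, t (M k k)

theorem trf_comm {K B N : Type} [Field K] [Ring B] [Algebra K B] [Fintype N] (t : B →ₗ[K] K)
    (ts : ∀ a b, t (a * b) = t (b * a)) (M M' : Matrix N N B) :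
    trf t (M * M') = trf t (M' * M) := by
  simp only [trf, Matrix.mul_apply, map_sum]
  rw [Finset.sum_comm]
  refine Finset.sum_congr rfl fun k _ => Finset.sum_congr rfl fun l _ => ts _ _

theorem trf_add {K B N : Type} [Field K] [Ring B] [Algebra K B] [Fintype N] (t : B →ₗ[K] K)
    (M M' : Matrix N N B) : trf t (M + M') = trf t M + trf t M' := by
  simp only [trf, Matrix.add_apply, map_add, Finset.sum_add_distrib]

theorem hsv : HsvStmt := by
  intro K B A I J N _ _ _ _ _ _ _ _ _ D e he
  set f : Matrix N N B := Matrix.of fun k l => D.sp.pr (D.s.y k * e * D.s.x l) with hf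
  set g : Matrix N N B := f.map D.v with hg
  set t : B →ₗ[K] K := D.c.lam ∘ₗ LinearMap.mulLeft K D.u' with ht
  have ta : ∀ b, t b = D.c.lam (D.u' * b) := fun b => rfl
  have uu' : D.u' * D.u = 1 := by rw [← D.uc, D.uu]
  have u'c : ∀ b, D.u' * b = b * D.u' := by
    intro b
    calc D.u' * b = D.u' * b * (D.u * D.u') := by rw [D.uu, mul_one]
      _ = D.u' * (b * D.u) * D.u' := by simp only [mul_assoc]
      _ = D.u' * (D.u * b) * D.u' := by rw [D.uc b]
      _ = (D.u' * D.u) * b * D.u' := by simp only [mul_assoc]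
      _ = b * D.u' := by rw [uu', one_mul]
  have ts : ∀ a b, t (a * b) = t (b * a) := by
    intro a b
    rw [ta, ta, ← mul_assoc, D.cs, ← mul_assoc, ← u'c, mul_assoc]
  have ff : f * f = f := by
    ext k l
    rw [Matrix.mul_apply]
    simp only [hf, Matrix.of_apply]
    have h1 : ∀ m, D.sp.pr (D.s.y k * e * D.s.x m) * D.sp.pr (D.s.y m * e * D.s.x l) =
        D.sp.pr (D.s.y k * e * (D.s.x m * D.sp.j (D.sp.pr (D.s.y m * (e * D.s.x l))))) := by
      intro m
      rw [← D.sp.pr_r, mul_assoc (D.s.y k * e), mul_assoc (D.s.y m)]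
    rw [Finset.sum_congr rfl fun m _ => h1 m, ← map_sum, ← Finset.mul_sum, D.s.e1,
      ← mul_assoc, mul_assoc (D.s.y k), he]
  have gg : g = g * f + f * g := by
    ext k l
    rw [Matrix.add_apply, Matrix.mul_apply, Matrix.mul_apply, ← Finset.sum_add_distrib]
    have h1 : g k l = D.v ((f * f) k l) := by rw [ff]; rfl
    rw [h1, Matrix.mul_apply, map_sum]
    exact Finset.sum_congr rfl fun m _ => D.vm _ _
  have fgf : f * g * f = 0 := by
    have h1 : f * g * f = f * g * f + f * g * f := by
      calc f * g * f = f * (g * f + f * g) * f := by rw [← gg]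
        _ = f * g * (f * f) + (f * f) * g * f := by
          rw [Matrix.mul_add, Matrix.add_mul]
          simp only [Matrix.mul_assoc]
        _ = f * g * f + f * g * f := by rw [ff]
    exact (add_eq_left.mp h1.symm)
  have h2 : trf t g = 0 := by
    have h3 : trf t (g * f) = 0 := by
      calc trf t (g * f) = trf t (g * (f * f)) := by rw [ff]
        _ = trf t ((g * f) * f) := by rw [Matrix.mul_assoc]
        _ = trf t (f * (g * f)) := trf_comm t ts _ _
        _ = trf t (f * g * f) := by rw [Matrix.mul_assoc]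
        _ = 0 := by
          rw [fgf]
          simp [trf]
    rw [gg, trf_add, trf_comm t ts f g, h3, add_zero]
  have h4 : trf t g = (D.wt : K) * trf t f := by
    rw [trf, trf, Finset.mul_sum]
    exact Finset.sum_congr rfl fun k _ => D.tv _
  have h5 : trf t f = 0 := by
    rw [h2] at h4
    have h6 : (D.wt : K) ≠ 0 := by
      exact_mod_cast D.wp.ne'
    exact (mul_eq_zero.mp h4.symm).resolve_left h6
  rw [← h5, RF.rt, Finset.sum_mul, map_sum, trf]
  refine Finset.sum_congr rfl fun k _ => ?_
  rw [ta, hf, Matrix.of_apply, ← D.sp.pr_l, ← D.ort, mul_assoc, mul_assoc, D.ds]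
  simp only [mul_assoc]

end Pool.Agent.PFD.D4.H89
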